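import Mathlib

/-!
# A smooth approximation of the sign, and derivatives of a function with values in a null set
-/

set_option autoImplicit false

open Set Filter Topology MeasureTheory

noncomputable section

namespace Pool.Agent.K7.H58.RM

/-- a smooth function which is `1` for `t ≥ s` and `-1` for `t ≤ -s` -/
def sg (s t : ℝ) : ℝ := 2 * Real.smoothTransition ((t / s + 1) / 2) - 1

theorem sg_smooth (s : ℝ) : ContDiff ℝ 1 (sg s) := by
  unfold sg
  have h : ContDiff ℝ 1 fun t : ℝ => (t / s + 1) / 2 := by fun_prop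
  exact (contDiff_const.mul (Real.smoothTransition.contDiff.comp h)).sub contDiff_const

theorem sg_one {s t : ℝ} (hs : 0 < s) (h : s ≤ t) : sg s t = 1 := by
  unfold sg
  have h1 : 1 ≤ t / s := (one_le_div hs).2 h
  rw [Real.smoothTransition.one_of_one_le (by linarith)]
  norm_num

theorem sg_neg {s t : ℝ} (hs : 0 < s) (h : t ≤ -s) : sg s t = -1 := by
  unfold sg
  have h1 : t / s ≤ -1 := by rw [div_le_iff₀ hs]; linarith
  rw [Real.smoothTransition.zero_of_nonpos (by linarith)]
  norm_num

theorem sg_deriv {s t : ℝ} (hs : 0 < s) (h : s < |t|) : deriv (sg s) t = 0 := by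
  rcases lt_abs.1 h with h | h
  · have h1 : sg s =ᶠ[𝓝 t] fun _ => 1 := by
      filter_upwards [lt_mem_nhds h] with u hu using sg_one hs hu.le
    rw [h1.deriv_eq, deriv_const]
  · have h1 : sg s =ᶠ[𝓝 t] fun _ => -1 := by
      filter_upwards [gt_mem_nhds (show t < -s by linarith)] with u hu using sg_neg hs hu.le
    rw [h1.deriv_eq, deriv_const]

theorem sg_bound {s : ℝ} (hs : 0 < s) : ∃ L : NNReal, (∀ t, |deriv (sg s) t| ≤ L) ∧
    LipschitzWith L (sg s) := by
  have hc : Continuous (deriv (sg s)) := (sg_smooth s).continuous_deriv le_rfl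
  have hsupp : HasCompactSupport (deriv (sg s)) := by
    refine HasCompactSupport.of_support_subset_isCompact (isCompact_Icc (a := -s) (b := s)) ?_
    intro t ht
    by_contra hno
    refine ht (sg_deriv hs ?_)
    by_contra h2
    exact hno (abs_le.1 (not_lt.1 h2))
  obtain ⟨C, hC⟩ := hsupp.exists_bound_of_continuous hc
  refine ⟨‖C‖₊, fun t => ?_, ?_⟩
  · exact (hC t).trans (le_abs_self C)
  · refine lipschitzWith_of_nnnorm_deriv_le ((sg_smooth s).differentiable one_ne_zero) fun t => ?_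
    rw [← NNReal.coe_le_coe]
    exact (hC t).trans (le_abs_self C)

/-- a function with values in a null set has derivative zero almost everywhere -/
theorem ae_deriv_zero (f : ℝ → ℝ) (N : Set ℝ) (hN : volume N = 0) :
    ∀ᵐ t : ℝ, f t ∈ N → ∀ d, HasDerivAt f d t → d = 0 := by
  have hcov : {t : ℝ | ¬ (f t ∈ N → ∀ d, HasDerivAt f d t → d = 0)} ⊆
      ⋃ (n : ℕ) (q : ℤ), {t : ℝ | f t ∈ N ∧
        (∀ s, |s - t| < 1 / ((n : ℝ) + 1) → |s - t| ≤ ((n : ℝ) + 1) * |f s - f t|) ∧
        ⌊t * ((n : ℝ) + 1)⌋ = q} := by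
    intro t ht
    simp only [mem_ofPred_eq, not_forall] at ht
    obtain ⟨htN, d, hd, hd0⟩ := ht
    have h1 := hasDerivAt_iff_isLittleO.1 hd
    have h2 := h1.def (show 0 < |d| / 2 by positivity)
    obtain ⟨δ, hδ, h3⟩ := Metric.eventually_nhds_iff_ball.1 h2
    obtain ⟨n, hn⟩ := exists_nat_gt (max (1 / δ) (2 / |d|))
    simp only [mem_iUnion, mem_ofPred_eq]
    refine ⟨n, _, htN, fun s hs => ?_, rfl⟩
    have hn1 : 1 / δ < (n : ℝ) + 1 := lt_of_le_of_lt (le_max_left _ _) (hn.trans (lt_add_one _))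
    have hn2 : 2 / |d| < (n : ℝ) + 1 := lt_of_le_of_lt (le_max_right _ _) (hn.trans (lt_add_one _))
    have hdpos : 0 < |d| := abs_pos.2 hd0
    have hsδ : |s - t| < δ := by
      refine hs.trans ?_
      rw [div_lt_iff₀ (by positivity)]
      rw [div_lt_iff₀ hδ] at hn1
      linarith
    have h4 := h3 s (by rw [Metric.mem_ball, Real.dist_eq]; exact hsδ)
    rw [Real.norm_eq_abs, Real.norm_eq_abs, smul_eq_mul] at h4
    have h5 : |(s - t) * d| ≤ |f s - f t| + |d| / 2 * |s - t| := by
      have h6 : |(s - t) * d| ≤ |f s - f t| + |f s - f t - (s - t) * d| := by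
        have h7 : (s - t) * d = (f s - f t) - (f s - f t - (s - t) * d) := by ring
        calc |(s - t) * d| = |(f s - f t) - (f s - f t - (s - t) * d)| := by rw [← h7]
          _ ≤ _ := abs_sub _ _
      linarith
    rw [abs_mul] at h5
    have h6 : |d| / 2 * |s - t| ≤ |f s - f t| := by nlinarith
    rw [div_lt_iff₀ hdpos] at hn2
    have h8 : 0 ≤ |f s - f t| := abs_nonneg _
    have h9 : 0 ≤ |s - t| := abs_nonneg _
    calc |s - t| = (2 / |d|) * (|d| / 2 * |s - t|) := by field_simp
      _ ≤ (2 / |d|) * |f s - f t| := by gcongr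
      _ ≤ ((n : ℝ) + 1) * |f s - f t| := by
        refine mul_le_mul_of_nonneg_right ?_ h8
        rw [div_le_iff₀ hdpos]
        exact hn2.le
  rw [ae_iff]
  refine measure_mono_null hcov ?_
  refine measure_iUnion_null fun n => measure_iUnion_null fun q => ?_
  set A := {t : ℝ | f t ∈ N ∧
        (∀ s, |s - t| < 1 / ((n : ℝ) + 1) → |s - t| ≤ ((n : ℝ) + 1) * |f s - f t|) ∧
        ⌊t * ((n : ℝ) + 1)⌋ = q} with hA
  have hdist : ∀ s ∈ A, ∀ t ∈ A, |s - t| ≤ ((n : ℝ) + 1) * |f s - f t| := by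
    intro s hs t ht
    refine ht.2.1 s ?_
    have hp : (0 : ℝ) < (n : ℝ) + 1 := by positivity
    have h1 := Int.abs_sub_lt_one_of_floor_eq_floor (hs.2.2.trans ht.2.2.symm)
    rw [← sub_mul, abs_mul, abs_of_pos hp] at h1
    rw [lt_div_iff₀ hp]
    exact h1
  have hinj : InjOn f A := by
    intro s hs t ht hst
    have h1 := hdist s hs t ht
    rw [hst, sub_self, abs_zero, mul_zero] at h1
    linarith [abs_nonpos_iff.1 h1]
  have hlip : LipschitzOnWith ((n : NNReal) + 1) (Function.invFunOn f A) (f '' A) := by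
    refine LipschitzOnWith.of_dist_le_mul ?_
    rintro _ ⟨s, hs, rfl⟩ _ ⟨t, ht, rfl⟩
    rw [hinj.leftInvOn_invFunOn hs, hinj.leftInvOn_invFunOn ht, Real.dist_eq, Real.dist_eq]
    push_cast
    exact hdist s hs t ht
  have himg : Function.invFunOn f A '' (f '' A) = A := by
    rw [image_image]
    ext t
    constructor
    · rintro ⟨s, hs, rfl⟩
      show Function.invFunOn f A (f s) ∈ A
      rw [hinj.leftInvOn_invFunOn hs]
      exact hs
    · intro ht
      exact ⟨t, ht, hinj.leftInvOn_invFunOn ht⟩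
  have h1 := hlip.hausdorffMeasure_image_le (d := 1) zero_le_one
  rw [himg, hausdorffMeasure_real] at h1
  have h2 : volume (f '' A) = 0 := by
    refine measure_mono_null ?_ hN
    rintro _ ⟨t, ht, rfl⟩
    exact ht.1
  rw [h2, mul_zero] at h1
  exact le_antisymm h1 zero_le

/-- two nonnegative densities with the same integrals of continuous functions -/
theorem ae_eq_of_int {M : Type} [MetricSpace M] [CompactSpace M] [MeasurableSpace M]
    [BorelSpace M] (μ : Measure M) [IsFiniteMeasure μ] (p q : M → ℝ) (hp : Measurable p)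
    (hq : Measurable q) (hp0 : ∀ x, 0 ≤ p x) (hq0 : ∀ x, 0 ≤ q x) (hpi : Integrable p μ)
    (hqi : Integrable q μ) (h : ∀ f : C(M, ℝ), ∫ x, f x * p x ∂μ = ∫ x, f x * q x ∂μ) :
    p =ᵐ[μ] q := by
  have hfin : ∀ r : M → ℝ, Integrable r μ →
      IsFiniteMeasure (μ.withDensity fun x => ENNReal.ofReal (r x)) := by
    intro r hr
    refine ⟨?_⟩
    rw [withDensity_apply _ MeasurableSet.univ, Measure.restrict_univ]
    exact hr.lintegral_lt_top
  haveI := hfin p hpi
  haveI := hfin q hqi
  have hint : ∀ r : M → ℝ, Measurable r → (∀ x, 0 ≤ r x) → ∀ f : M → ℝ,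
      ∫ x, f x ∂(μ.withDensity fun x => ENNReal.ofReal (r x)) = ∫ x, f x * r x ∂μ := by
    intro r hr hr0 f
    rw [integral_withDensity_eq_integral_toReal_smul hr.ennreal_ofReal
      (Eventually.of_forall fun x => ENNReal.ofReal_lt_top)]
    refine integral_congr_ae (Eventually.of_forall fun x => ?_)
    simp only [smul_eq_mul, ENNReal.toReal_ofReal (hr0 x)]
    ring
  have heq : (μ.withDensity fun x => ENNReal.ofReal (p x)) =
      μ.withDensity fun x => ENNReal.ofReal (q x) := by
    refine ext_of_forall_integral_eq_of_IsFiniteMeasure fun f => ?_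
    rw [hint p hp hp0, hint q hq hq0]
    exact h f.toContinuousMap
  have h2 := (withDensity_eq_iff hp.ennreal_ofReal.aemeasurable
    hq.ennreal_ofReal.aemeasurable hpi.lintegral_lt_top.ne).1 heq
  filter_upwards [h2] with x hx
  exact (ENNReal.ofReal_eq_ofReal_iff (hp0 x) (hq0 x)).1 hx

end Pool.Agent.K7.H58.RM
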