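import Pool.Agent.K7.H58.RM.Rand

/-!
# Generic conformal metrics: the levels and their differences avoid meagre sets
-/

set_option autoImplicit false

open Set Filter Topology MeasureTheory
open scoped Real ContDiff

noncomputable section

namespace Pool.Agent.K7.H58.RM

open Pool.Agent.Y262.QE Pool.Agent.Y264.QR Pool.Agent.Q205.QLim Pool.Agent.Q205.Baire
open Pool.Agent.Y319.QR

/-- a continuous function with values in a set without interior points is constant -/
theorem const_of_nowhere {g : ℝ → ℝ} (hg : Continuous g) {C : Set ℝ} (hC : interior C = ∅)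
    {τ : ℝ} (hτ : ∀ t, |t| < τ → g t ∈ C) (s t : ℝ) (hs : |s| < τ) (ht : |t| < τ) : g s = g t := by
  by_contra hne
  have h1 : uIcc (g s) (g t) ⊆ g '' uIcc s t := intermediate_value_uIcc hg.continuousOn
  have h2 : uIcc (g s) (g t) ⊆ C := by
    intro y hy
    obtain ⟨r, hr, rfl⟩ := h1 hy
    refine hτ r ?_
    rw [abs_lt] at hs ht ⊢
    rcases le_total s t with h | h
    · rw [uIcc_of_le h] at hr
      constructor <;> linarith [hr.1, hr.2]
    · rw [uIcc_of_ge h] at hr
      constructor <;> linarith [hr.1, hr.2]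
  have h3 : interior (uIcc (g s) (g t)) = ∅ := by
    have := interior_mono h2
    rw [hC] at this
    exact subset_empty_iff.1 this
  rw [uIcc, interior_Icc, Ioo_eq_empty_iff] at h3
  exact h3 (by
    rcases lt_or_gt_of_ne hne with h | h
    · rw [min_eq_left h.le, max_eq_right h.le]; exact h
    · rw [min_eq_right h.le, max_eq_left h.le]; exact h)

section abs

variable {M : Type} [MetricSpace M] [CompactSpace M] [MeasurableSpace M] [BorelSpace M]
  (μ : Measure M) [IsFiniteMeasure μ] {H : Type} [NormedAddCommGroup H] [InnerProductSpace ℝ H]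
  (i : H →L[ℝ] Lp ℝ 2 μ) (a : H →L[ℝ] H →L[ℝ] ℝ) (b : C(M, ℝ) → H →L[ℝ] H →L[ℝ] ℝ)
  (hSf : Sf μ i a) (hB : IsB μ i b)
  (hex : ∀ φ, ∃ (e : ℕ → H) (E : ℕ → ℝ), Eg a (b φ) e E) (hW : Wl μ a b)

include hSf hB hex in
/-- continuity of the logarithmic derivative at a metric with constant masses -/
theorem lim_term {φ h : C(M, ℝ)} {l : ℕ} (v : ℝ → H)
    (hv : ∀ t, UE a (b (φ + t • h)) (Ev a (b (φ + t • h)) l) (v t))
    (hconst : 0 < Ev a (b φ) l → ∀ v w, UE a (b φ) (Ev a (b φ) l) v →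
      UE a (b φ) (Ev a (b φ) l) w → kap μ i h φ v = kap μ i h φ w) :
    Tendsto (fun t : ℝ => Ev a (b (φ + t • h)) l *
      (avg μ h (φ + t • h) - kap μ i h (φ + t • h) (v t))) (𝓝 0)
      (𝓝 (Ev a (b φ) l * (avg μ h φ - kap μ i h φ (v 0)))) := by
  obtain ⟨hF, hA, hexp, hk⟩ := facts μ i a b hSf hB
  obtain ⟨l1, l2, l3, l4, l5⟩ := Pool.Agent.Y390.QR.LIP.lip M μ H a b hF hexp
  have hz : φ + (0 : ℝ) • h = φ := by rw [zero_smul, add_zero]
  rcases l5 l with h0 | h0
  · simp only [h0, zero_mul]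
    exact tendsto_const_nhds
  have hc : Continuous fun t : ℝ => φ + t • h := by fun_prop
  have t1 : Tendsto (fun t : ℝ => Ev a (b (φ + t • h)) l) (𝓝 0) (𝓝 (Ev a (b φ) l)) := by
    have h9 : Tendsto (fun t : ℝ => Ev a (b (φ + t • h)) l) (𝓝 0)
        (𝓝 (Ev a (b (φ + (0 : ℝ) • h)) l)) := ((l4 l).comp hc).tendsto 0
    rw [hz] at h9
    exact h9
  have t2 : Tendsto (fun t : ℝ => avg μ h (φ + t • h)) (𝓝 0) (𝓝 (avg μ h φ)) := by
    have h9 : Tendsto (fun t : ℝ => avg μ h (φ + t • h)) (𝓝 0) (𝓝 (avg μ h (φ + (0 : ℝ) • h))) :=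
      (Pool.Agent.Y155.QR.avg_cont μ hA φ h).tendsto 0
    rw [hz] at h9
    exact h9
  have t3 : Tendsto (fun t : ℝ => kap μ i h (φ + t • h) (v t)) (𝓝 0) (𝓝 (kap μ i h φ (v 0))) := by
    rw [Metric.tendsto_nhds]
    intro ε hε
    obtain ⟨δ, hδ, hp⟩ := pert μ i a b hSf hB hex φ l h (half_pos hε)
    have h1 : ∀ᶠ t in 𝓝 (0 : ℝ), ‖(φ + t • h) - φ‖ < δ := by
      have h2 : Tendsto (fun t : ℝ => ‖(φ + t • h) - φ‖) (𝓝 0) (𝓝 0) := by
        have h9 : Tendsto (fun t : ℝ => ‖(φ + t • h) - φ‖) (𝓝 0) (𝓝 ‖(φ + (0 : ℝ) • h) - φ‖) :=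
          ((hc.sub continuous_const).norm : Continuous fun t : ℝ => ‖(φ + t • h) - φ‖).tendsto 0
        rw [hz, sub_self, norm_zero] at h9
        exact h9
      exact h2.eventually (gt_mem_nhds hδ)
    filter_upwards [h1] with t ht
    obtain ⟨w, hw1, hw2⟩ := hp _ ht (v t) (hv t)
    have h3 := hv 0
    rw [hz] at h3
    rw [hconst (h0 φ) w (v 0) hw1 h3, abs_sub_comm] at hw2
    rw [Real.dist_eq]
    linarith
  exact t1.mul (t2.sub t3)

include hSf hB hex hW in
/-- on a line on which a difference of two levels is constant -/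
theorem line_const {φ h : C(M, ℝ)} {j k : ℕ} {θ τ : ℝ} (hτ : 0 < τ)
    (hc : ∀ s t : ℝ, |s| < τ → |t| < τ →
      unf μ a b k (φ + s • h) - θ * unf μ a b j (φ + s • h) =
        unf μ a b k (φ + t • h) - θ * unf μ a b j (φ + t • h))
    (hconst : ∀ l, 0 < Ev a (b φ) l → ∀ v w, UE a (b φ) (Ev a (b φ) l) v →
      UE a (b φ) (Ev a (b φ) l) w → kap μ i h φ v = kap μ i h φ w)
    {e : ℕ → H} {E : ℕ → ℝ} (hE : Eg a (b φ) e E) :
    E k * (avg μ h φ - kap μ i h φ (e k)) = θ * E j * (avg μ h φ - kap μ i h φ (e j)) := by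
  classical
  obtain ⟨hF, hA, hexp, hk⟩ := facts μ i a b hSf hB
  have hz : φ + (0 : ℝ) • h = φ := by rw [zero_smul, add_zero]
  choose e' E' hE' using hex
  -- the choice of the bases on the line
  set g : ℝ → ℕ → H := fun t => if t = 0 then e else e' (φ + t • h) with hg
  set G : ℝ → ℕ → ℝ := fun t => if t = 0 then E else E' (φ + t • h) with hG
  have hgE : ∀ t, Eg a (b (φ + t • h)) (g t) (G t) := by
    intro t
    by_cases ht : t = 0
    · simp only [hg, hG, if_pos ht]
      rw [ht, hz]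
      exact hE
    · simp only [hg, hG, if_neg ht]
      exact hE' _
  have hUE : ∀ t l, UE a (b (φ + t • h)) (Ev a (b (φ + t • h)) l) (g t l) := by
    intro t l
    rw [Pool.Agent.Y592.QE.mm H a (b (φ + t • h)) (hF _) _ _ (hgE t) l]
    exact ⟨by rw [(hgE t).orth, if_pos rfl], (hgE t).eig l⟩
  have hex' : ∀ φ, ∃ (e : ℕ → H) (E : ℕ → ℝ), Eg a (b φ) e E := fun φ => ⟨_, _, hE' φ⟩
  have tk := lim_term μ i a b hSf hB hex' (fun t => g t k) (fun t => hUE t k) (hconst k)
  have tj := lim_term μ i a b hSf hB hex' (fun t => g t j) (fun t => hUE t j) (hconst j)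
  have hT := tk.sub (tj.const_mul θ)
  have hae : ∀ᵐ t : ℝ, |t| < τ → Ev a (b (φ + t • h)) k *
      (avg μ h (φ + t • h) - kap μ i h (φ + t • h) (g t k)) -
      θ * (Ev a (b (φ + t • h)) j *
      (avg μ h (φ + t • h) - kap μ i h (φ + t • h) (g t j))) = 0 := by
    have h1 := (tOneP M μ H i a b hSf hB hW φ h g G hgE).1
    filter_upwards [h1] with t ht htτ
    have d1 := unf_der μ i a b hSf hB hex' h (φ + t • h) k (g t k)
      (shift_der (G := fun φ => Ev a (b φ) k) (ht k))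
    have d2 := unf_der μ i a b hSf hB hex' h (φ + t • h) j (g t j)
      (shift_der (G := fun φ => Ev a (b φ) j) (ht j))
    have d3 := d1.sub (d2.const_mul θ)
    have d4 : HasDerivAt (fun s : ℝ => unf μ a b k ((φ + t • h) + s • h) -
        θ * unf μ a b j ((φ + t • h) + s • h)) 0 0 := by
      have h2 : (fun s : ℝ => unf μ a b k ((φ + t • h) + s • h) -
          θ * unf μ a b j ((φ + t • h) + s • h)) =ᶠ[𝓝 0] fun _ =>
          unf μ a b k (φ + t • h) - θ * unf μ a b j (φ + t • h) := by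
        have h3 : ∀ᶠ s in 𝓝 (0 : ℝ), |t + s| < τ := by
          have h4 : Continuous fun s : ℝ => |t + s| := by fun_prop
          have h5 := h4.tendsto 0
          rw [add_zero] at h5
          exact h5.eventually (gt_mem_nhds htτ)
        filter_upwards [h3] with s hs
        rw [add_assoc, ← add_smul]
        exact hc _ _ hs htτ
      exact (hasDerivAt_const (0 : ℝ) _).congr_of_eventuallyEq h2
    have d5 := d3.unique d4
    have h6 : 0 < (∫ x, Real.exp ((φ + t • h) x) ∂μ) / (4 * π) :=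
      div_pos (hA (φ + t • h)) (by positivity)
    have h7 : (∫ x, Real.exp ((φ + t • h) x) ∂μ) / (4 * π) * (Ev a (b (φ + t • h)) k *
      (avg μ h (φ + t • h) - kap μ i h (φ + t • h) (g t k)) -
      θ * (Ev a (b (φ + t • h)) j *
      (avg μ h (φ + t • h) - kap μ i h (φ + t • h) (g t j)))) = 0 := by
      rw [← d5]; ring
    exact (mul_eq_zero.1 h7).resolve_left h6.ne'
  have hd := Measure.dense_of_ae hae
  have h0 : Ev a (b φ) k * (avg μ h φ - kap μ i h φ (g 0 k)) -
      θ * (Ev a (b φ) j * (avg μ h φ - kap μ i h φ (g 0 j))) = 0 := by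
    by_contra hne
    have h1 := hT.eventually (isOpen_ne.mem_nhds hne)
    have h2 : ∀ᶠ t in 𝓝 (0 : ℝ), |t| < τ := by
      have h4 : Continuous fun s : ℝ => |s| := by fun_prop
      have h5 := h4.tendsto 0
      rw [abs_zero] at h5
      exact h5.eventually (gt_mem_nhds hτ)
    obtain ⟨U, hU, hUo, h0U⟩ := mem_nhds_iff.1 (h1.and h2)
    obtain ⟨t, htU, ht⟩ := hd.inter_open_nonempty U hUo ⟨0, h0U⟩
    obtain ⟨h8, h9⟩ := hU htU
    exact h8 (ht h9)
  have hmm : ∀ l, Ev a (b φ) l = E l :=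
    fun l => Pool.Agent.Y592.QE.mm _ a (b φ) (hF φ) e E hE l
  have hg0 : g 0 = e := by simp only [hg, if_true]
  rw [hg0, hmm, hmm] at h0
  linarith

end abs

section surf

variable {M : Type} [MetricSpace M] [CompactSpace M] [MeasurableSpace M] [BorelSpace M]
  {μ : Measure M} {D : Data M} [IsFiniteMeasure μ]

/-- the levels of a generic metric -/
theorem bai (hD : D.IsSurf μ) (i : HF D μ →L[ℝ] Lp ℝ 2 μ) (a : HF D μ →L[ℝ] HF D μ →L[ℝ] ℝ)
    (hSf : Sf μ i a) (hi : ∀ v, i v = v.1.fst) (ha : ∀ u v, a u v = inner ℝ u.1.snd v.1.snd)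
    (b : C(M, ℝ) → HF D μ →L[ℝ] HF D μ →L[ℝ] ℝ) (hB : IsB μ i b)
    (hex : ∀ φ, ∃ (e : ℕ → HF D μ) (E : ℕ → ℝ), Eg a (b φ) e E) (hW : Wl μ a b)
    {F : Type*} [AddCommGroup F] [Module ℝ F] [TopologicalSpace F]
    [IsTopologicalAddGroup F] [ContinuousSMul ℝ F] (ι : F →L[ℝ] C(M, ℝ)) (hι : DenseRange ι)
    (θ : ℝ) (hθ0 : 0 ≤ θ) (hθ1 : θ ≤ 1)
    (N : Set ℝ) (hN : IsMeagre N) : ∀ᶠ φ in residual F, ∀ j k, j < k →
      0 < unf μ a b k (ι φ) → unf μ a b k (ι φ) - θ * unf μ a b j (ι φ) ∉ N := by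
  obtain ⟨hF, hA, hexp, hk⟩ := facts μ i a b hSf hB
  obtain ⟨S, hS1, hS2, hS3⟩ := isMeagre_iff_countable_union_isNowhereDense.1 hN
  haveI := hS2.to_subtype
  have h1 : ∀ᶠ φ in residual F, ∀ (C : S) (j k : ℕ),
      unf μ a b k (ι φ) - θ * unf μ a b j (ι φ) ∈ closure (C : Set ℝ) →
        φ ∈ interior {φ : F | unf μ a b k (ι φ) - θ * unf μ a b j (ι φ) ∈ closure (C : Set ℝ)} := by
    rw [eventually_countable_forall]
    intro C
    rw [eventually_countable_forall]
    intro j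
    rw [eventually_countable_forall]
    intro k
    refine ev_interior (isClosed_closure.preimage ?_)
    exact ((unf_cont μ i a b hSf hB k).comp ι.continuous).sub
      (continuous_const.mul ((unf_cont μ i a b hSf hB j).comp ι.continuous))
  filter_upwards [h1, generic_main μ i a b hSf hB hex hW ι hι tendsto_id] with φ g1 g2 j k hjk hpos
    hmem
  obtain ⟨g3, -, -⟩ := g2
  obtain ⟨C, hCS, hC⟩ := mem_sUnion.1 (hS3 hmem)
  have hint := g1 ⟨C, hCS⟩ j k (subset_closure hC)
  obtain ⟨e, E, hE⟩ := hex (ι φ)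
  have hmm : ∀ l, Ev a (b (ι φ)) l = E l :=
    fun l => Pool.Agent.Y592.QE.mm _ a (b (ι φ)) (hF _) e E hE l
  have hEk : 0 < Ev a (b (ι φ)) k := by
    unfold unf at hpos
    exact (pos_iff_pos_of_mul_pos hpos).1 (div_pos (hA _) (by positivity))
  refine core hD i a hSf hi ha b hB hE hjk hθ0 hθ1 (by rw [← hmm]; exact hEk) ?_ ?_
  · intro f v w hv hw
    rw [← hmm] at hv hw
    exact g3 f k hEk v w hv hw
  · intro f
    have hd : Dense (Submodule.span ℝ (range ι) : Set C(M, ℝ)) :=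
      hι.mono Submodule.subset_span
    have key := ext_id μ i a b hSf hB hd (φ := ι φ) (v := e k) (w := e j) (α := E k)
      (β := θ * E j) (fun h hh => ?_) f
    · rw [key, mul_assoc]
    · obtain ⟨s, rfl⟩ := hh
      have hc : Continuous fun t : ℝ => φ + t • s := by fun_prop
      have h2 : ∀ᶠ t in 𝓝 (0 : ℝ), φ + t • s ∈ interior {φ : F | unf μ a b k (ι φ) -
          θ * unf μ a b j (ι φ) ∈ closure (C : Set ℝ)} := by
        have h3 := hc.tendsto 0
        rw [zero_smul, add_zero] at h3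
        exact h3.eventually (isOpen_interior.mem_nhds hint)
      obtain ⟨τ, hτ, h3⟩ := Metric.eventually_nhds_iff_ball.1 h2
      have hline : ∀ t : ℝ, ι (φ + t • s) = ι φ + t • ι s := fun t => by
        rw [map_add, map_smul]
      have hg : Continuous fun t : ℝ => unf μ a b k (ι φ + t • ι s) -
          θ * unf μ a b j (ι φ + t • ι s) := by
        have hc' : Continuous fun t : ℝ => ι φ + t • ι s := by fun_prop
        exact ((unf_cont μ i a b hSf hB k).comp hc').sub
          (continuous_const.mul ((unf_cont μ i a b hSf hB j).comp hc'))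
      refine line_const μ i a b hSf hB hex hW (τ := τ) hτ ?_ ?_ hE
      · intro u t hu ht
        refine const_of_nowhere hg (C := closure (C : Set ℝ)) ?_ (τ := τ) ?_ u t hu ht
        · exact hS1 C hCS
        · intro t ht
          have h5 := interior_subset (h3 t (by rw [Metric.mem_ball, Real.dist_eq, sub_zero]; exact ht))
          show unf μ a b k (ι φ + t • ι s) - θ * unf μ a b j (ι φ + t • ι s) ∈ _
          rw [← hline]
          exact h5
      · intro l hl v w hv hw
        exact g3 (ι s) l hl v w hv hw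

end surf

end Pool.Agent.K7.H58.RM
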