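import Pool.Agent.K7.H58.RM.Bai

/-!
# Zero is a simple eigenvalue of a connected surface
-/

set_option autoImplicit false

open Set Filter Topology MeasureTheory
open scoped Real ContDiff

noncomputable section

namespace Pool.Agent.K7.H58.RM

open Pool.Agent.Y262.QE Pool.Agent.Y264.QR Pool.Agent.Y764.QR

variable {M : Type} [MetricSpace M] [CompactSpace M] [MeasurableSpace M] [BorelSpace M]
  {μ : Measure M} {D : Data M} [IsFiniteMeasure μ]

/-- Poincaré's inequality on a small square of the surface -/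
theorem poin_sq (hD : D.IsSurf μ) {η r : ℝ} {Φ : ℂ → M} (hη : 0 < η) (hr : 0 < r)
    (hP : Pt D μ η r Φ) (F : M → ℝ) (hF : D.C1 F) : ∃ m : ℝ,
      ∫ x in Φ '' Sq 0 r, (F x - m) ^ 2 ∂μ ≤
        (1 + η) ^ 4 * (4 * r ^ 2) * ∫ x, ‖D.gr F x‖ ^ 2 ∂μ := by
  obtain ⟨gr1, -, -⟩ := Pool.Agent.Y708.QE.gradient M μ D hD
  obtain ⟨cF, mg, CG, hCG⟩ := gr1 F hF
  obtain ⟨O, o1, o2, o3⟩ := hP.grad
  obtain ⟨o4, o5⟩ := o3 F hF
  set m : ℝ := (4 * r ^ 2)⁻¹ * ∫ y in Sq 0 r, F (Φ y) with hm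
  obtain ⟨CF, hCF⟩ := cont_bdd cF
  obtain ⟨CF2, hCF2⟩ := cont_bdd ((cF.sub continuous_const).pow 2 : Continuous fun x => (F x - m) ^ 2)
  have hfin : volume (Sq 0 r) ≠ ⊤ := (Pool.Agent.Y540.QE.compact_sq 0 r).measure_lt_top.ne
  refine ⟨m, ?_⟩
  have s2 : ∫ x in Φ '' Sq 0 r, (F x - m) ^ 2 ∂μ ≤ (1 + η) * ∫ y in Sq 0 r, (F (Φ y) - m) ^ 2 :=
    (int_le hη hP (g := fun x => (F x - m) ^ 2)
      ((cF.sub continuous_const).pow 2).measurable (fun x => sq_nonneg _) hCF2).1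
  have s3 := Pool.Agent.Y540.QE.poin 0 r O (fun y => F (Φ y) - m) hr o1 o2
    (o4.sub contDiffOn_const)
  have s3' : ∫ y in Sq 0 r, (F (Φ y) - m) = 0 := by
    rw [integral_sub (int_comp hP cF.measurable hCF) (integrableOn_const hfin),
      setIntegral_const, smul_eq_mul, vol_sq hr, hm]
    field_simp
    ring
  rw [s3'] at s3
  simp only [fderiv_sub_const] at s3
  have s4 : ∫ z in Sq 0 r, ‖fderiv ℝ (fun y => F (Φ y)) z‖ ^ 2 ≤
      (1 + η) ^ 2 * ∫ z in Sq 0 r, ‖D.gr F (Φ z)‖ ^ 2 := by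
    rw [← integral_const_mul]
    refine setIntegral_mono_on ?_ ?_ (meas_sq r) ?_
    · refine ContinuousOn.integrableOn_compact (Pool.Agent.Y540.QE.compact_sq 0 r) ?_
      exact (((o4.continuousOn_fderiv_of_isOpen o1 le_rfl).mono o2).norm).pow 2
    · refine Integrable.const_mul ?_ _
      refine int_comp hP (g := fun x => ‖D.gr F x‖ ^ 2) (mg.norm.pow_const 2) (C := CG ^ 2) ?_
      intro x
      rw [abs_of_nonneg (sq_nonneg _)]
      have := hCG x
      gcongr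
    · intro z hz
      have h1 := (o5 z (o2 hz)).1
      calc ‖fderiv ℝ (fun y => F (Φ y)) z‖ ^ 2 ≤ ((1 + η) * ‖D.gr F (Φ z)‖) ^ 2 := by gcongr
        _ = _ := by ring
  have hCG2 : ∀ x, |‖D.gr F x‖ ^ 2| ≤ CG ^ 2 := by
    intro x
    rw [abs_of_nonneg (sq_nonneg _)]
    have := hCG x
    gcongr
  have s5 := (int_le hη hP (g := fun x => ‖D.gr F x‖ ^ 2) (mg.norm.pow_const 2)
    (fun x => sq_nonneg _) (C := CG ^ 2) hCG2).2
  have s6 : ∫ x in Φ '' Sq 0 r, ‖D.gr F x‖ ^ 2 ∂μ ≤ ∫ x, ‖D.gr F x‖ ^ 2 ∂μ :=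
    setIntegral_le_integral (int_bdd (mg.norm.pow_const 2) hCG2) (ae_of_all _ fun x => sq_nonneg _)
  have hη1 : 0 < 1 + η := by linarith
  have hr2 : 0 < 4 * r ^ 2 := by positivity
  calc ∫ x in Φ '' Sq 0 r, (F x - m) ^ 2 ∂μ
      ≤ (1 + η) * ∫ y in Sq 0 r, (F (Φ y) - m) ^ 2 := s2
    _ ≤ (1 + η) * (4 * r ^ 2 * ∫ z in Sq 0 r, ‖fderiv ℝ (fun y => F (Φ y)) z‖ ^ 2) := by
        refine mul_le_mul_of_nonneg_left ?_ hη1.le
        refine s3.trans_eq ?_
        ring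
    _ ≤ (1 + η) * (4 * r ^ 2 * ((1 + η) ^ 2 * ((1 + η) * ∫ x, ‖D.gr F x‖ ^ 2 ∂μ))) := by
        refine mul_le_mul_of_nonneg_left (mul_le_mul_of_nonneg_left ?_ hr2.le) hη1.le
        refine s4.trans (mul_le_mul_of_nonneg_left ?_ (by positivity))
        exact s5.trans (mul_le_mul_of_nonneg_left s6 hη1.le)
    _ = _ := by ring

/-- a function without gradient is constant on small squares -/
theorem loc_const (hD : D.IsSurf μ) {η r : ℝ} {Φ : ℂ → M} (hη : 0 < η) (hr : 0 < r)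
    (hP : Pt D μ η r Φ) (v : HF D μ) (hv : v.1.snd = 0) :
    ∃ c : ℝ, ∀ᵐ x ∂μ, x ∈ Φ '' Sq 0 r → (v.1.fst : M → ℝ) x = c := by
  obtain ⟨F, f, hF, hf⟩ := (tDenF M μ D hD).2 v.1 v.2
  have hfst : Tendsto (fun k => (f k).fst) atTop (𝓝 v.1.fst) :=
    ((WithLp.fstL 2 ℝ (Lp ℝ 2 μ) (Lp ℂ 2 μ)).continuous.tendsto _).comp hf
  have hsnd : Tendsto (fun k => (f k).snd) atTop (𝓝 v.1.snd) :=
    ((WithLp.sndL 2 ℝ (Lp ℝ 2 μ) (Lp ℂ 2 μ)).continuous.tendsto _).comp hf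
  rw [hv] at hsnd
  set Q := Φ '' Sq 0 r with hQ
  have hQm : MeasurableSet Q := meas_P hP
  choose m hm using fun k => poin_sq hD hη hr hP (F k) (hF k).1
  set V : M → ℝ := (v.1.fst : M → ℝ) with hV
  have hV1 : Integrable V μ := (Lp.memLp v.1.fst).integrable (by norm_num)
  have hV2 : Integrable (fun x => V x ^ 2) μ := (Lp.memLp v.1.fst).integrable_sq
  set K : ℝ := (1 + η) ^ 4 * (4 * r ^ 2) with hK
  have hK0 : 0 ≤ K := by positivity
  -- the bound
  have hb : ∀ k, ∫ x in Q, (V x - m k) ^ 2 ∂μ ≤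
      2 * ‖(f k).fst - v.1.fst‖ ^ 2 + 2 * (K * ‖(f k).snd‖ ^ 2) := by
    intro k
    have hFc := Pool.Agent.Y708.QE.C1_cont hD (hF k).1
    obtain ⟨CF2, hCF2⟩ := cont_bdd ((hFc.sub continuous_const).pow 2 :
      Continuous fun x => (F k x - m k) ^ 2)
    have i1 : Integrable (fun x => (F k x - m k) ^ 2) μ :=
      int_bdd ((hFc.sub continuous_const).pow 2).measurable hCF2
    have i2 : Integrable (fun x => ‖((f k).fst - v.1.fst : Lp ℝ 2 μ) x‖ ^ 2) μ :=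
      (Lp.memLp _).integrable_norm_pow two_ne_zero
    have i3 : Integrable (fun x => (V x - m k) ^ 2) μ := by
      have h5 : Integrable (fun x => V x ^ 2 - 2 * m k * V x + m k ^ 2) μ :=
        (hV2.sub (hV1.const_mul _)).add (integrable_const _)
      exact h5.congr (Eventually.of_forall fun x => by ring)
    have e1 : ‖(f k).snd‖ ^ 2 = ∫ x, ‖D.gr (F k) x‖ ^ 2 ∂μ := by
      rw [l2sq]
      refine integral_congr_ae ?_
      filter_upwards [(hF k).2.2.2] with x hx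
      rw [hx]
    have e2 : ∫ x in Q, (V x - m k) ^ 2 ∂μ ≤ ∫ x in Q, (2 * ‖((f k).fst - v.1.fst : Lp ℝ 2 μ) x‖ ^ 2
        + 2 * (F k x - m k) ^ 2) ∂μ := by
      refine setIntegral_mono_ae i3.integrableOn
        ((i2.const_mul 2).add (i1.const_mul 2)).integrableOn ?_
      filter_upwards [Lp.coeFn_sub (f k).fst v.1.fst, (hF k).2.2.1] with x a1 a2
      rw [a1, Pi.sub_apply, a2, Real.norm_eq_abs, sq_abs]
      show (V x - m k) ^ 2 ≤ 2 * (F k x - V x) ^ 2 + 2 * (F k x - m k) ^ 2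
      nlinarith [sq_nonneg ((F k x - V x) + (F k x - m k))]
    refine e2.trans ?_
    rw [integral_add (i2.const_mul 2).integrableOn (i1.const_mul 2).integrableOn,
      integral_const_mul, integral_const_mul]
    refine add_le_add (mul_le_mul_of_nonneg_left ?_ zero_le_two)
      (mul_le_mul_of_nonneg_left ?_ zero_le_two)
    · rw [l2sq]
      exact setIntegral_le_integral i2 (ae_of_all _ fun x => sq_nonneg _)
    · rw [e1]
      exact hm k
  -- the mean value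
  by_cases hμQ : μ.real Q = 0
  · refine ⟨0, ?_⟩
    have h0 : μ Q = 0 := (measureReal_eq_zero_iff).1 hμQ
    have h1 : ∀ᵐ x ∂μ, x ∉ Q := measure_eq_zero_iff_ae_notMem.1 h0
    filter_upwards [h1] with x hx hxQ
    exact absurd hxQ hx
  have hpos : 0 < μ.real Q := lt_of_le_of_ne measureReal_nonneg (Ne.symm hμQ)
  set c : ℝ := (∫ x in Q, V x ∂μ) / μ.real Q with hc
  have hexp : ∀ s : ℝ, ∫ x in Q, (V x - s) ^ 2 ∂μ =
      (∫ x in Q, V x ^ 2 ∂μ) - 2 * s * (∫ x in Q, V x ∂μ) + s ^ 2 * μ.real Q := by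
    intro s
    have e1 : ∫ x in Q, (V x - s) ^ 2 ∂μ = ∫ x in Q, ((V x ^ 2 - 2 * s * V x) + s ^ 2) ∂μ :=
      integral_congr_ae (Eventually.of_forall fun x => by ring)
    have j1 : Integrable (fun x => V x ^ 2) (μ.restrict Q) := hV2.integrableOn
    have j2 : Integrable (fun x => 2 * s * V x) (μ.restrict Q) := (hV1.const_mul (2 * s)).integrableOn
    have j3 : Integrable (fun x => V x ^ 2 - 2 * s * V x) (μ.restrict Q) := j1.sub j2
    rw [e1, integral_add j3 (integrable_const _), integral_sub j1 j2, integral_const_mul,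
      setIntegral_const, smul_eq_mul]
    ring
  have hmin : ∀ s : ℝ, ∫ x in Q, (V x - c) ^ 2 ∂μ ≤ ∫ x in Q, (V x - s) ^ 2 ∂μ := by
    intro s
    rw [hexp, hexp]
    have e1 : ∫ x in Q, V x ∂μ = c * μ.real Q := by rw [hc]; field_simp
    rw [e1]
    nlinarith [mul_nonneg hpos.le (sq_nonneg (c - s))]
  have hlim : Tendsto (fun k => 2 * ‖(f k).fst - v.1.fst‖ ^ 2 + 2 * (K * ‖(f k).snd‖ ^ 2)) atTop
      (𝓝 0) := by
    have h1 := ((tendsto_iff_norm_sub_tendsto_zero.1 hfst).pow 2).const_mul 2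
    have h2 := (((hsnd.norm).pow 2).const_mul K).const_mul 2
    have h3 := h1.add h2
    simpa using h3
  have hzero : ∫ x in Q, (V x - c) ^ 2 ∂μ = 0 := by
    refine le_antisymm ?_ (setIntegral_nonneg hQm fun x _ => sq_nonneg _)
    exact ge_of_tendsto hlim (Eventually.of_forall fun k => (hmin (m k)).trans (hb k))
  have i3 : Integrable (fun x => (V x - c) ^ 2) μ := by
    have h5 : Integrable (fun x => V x ^ 2 - 2 * c * V x + c ^ 2) μ :=
      (hV2.sub (hV1.const_mul _)).add (integrable_const _)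
    exact h5.congr (Eventually.of_forall fun x => by ring)
  have h6 := (integral_eq_zero_iff_of_nonneg_ae (ae_of_all _ fun x => sq_nonneg _)
    i3.integrableOn).1 hzero
  refine ⟨c, ?_⟩
  have h7 := (ae_restrict_iff' hQm).1 h6
  filter_upwards [h7] with x hx hxQ
  have h8 : (V x - c) ^ 2 = 0 := hx hxQ
  have h9 := pow_eq_zero_iff two_ne_zero |>.1 h8
  linarith

theorem zero_int {r : ℝ} (hr : 0 < r) : (0 : ℂ) ∈ interior (Sq 0 r) := by
  rw [mem_interior]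
  refine ⟨Metric.ball 0 r, fun z hz => ?_, Metric.isOpen_ball, Metric.mem_ball_self hr⟩
  rw [Metric.mem_ball, dist_zero_right] at hz
  have h1 := Complex.abs_re_le_norm z
  have h2 := Complex.abs_im_le_norm z
  simp only [Sq, Complex.zero_re, Complex.zero_im, sub_zero]
  exact ⟨by linarith, by linarith⟩

/-- a function without gradient on a connected surface is constant -/
theorem glob_const [PreconnectedSpace M] [Nonempty M] (hD : D.IsSurf μ) (v : HF D μ)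
    (hv : v.1.snd = 0) : ∃ c : ℝ, ∀ᵐ x ∂μ, (v.1.fst : M → ℝ) x = c := by
  have hloc : ∀ p : M, ∃ (c : ℝ) (O : Set M), IsOpen O ∧ p ∈ O ∧
      ∀ᵐ x ∂μ, x ∈ O → (v.1.fst : M → ℝ) x = c := by
    intro p
    obtain ⟨i, hi⟩ := hD.cover p
    obtain ⟨r0, hr0, h1⟩ := tLoc M μ D hD i (D.φ i p) ⟨p, hi, rfl⟩ 1 one_pos
    obtain ⟨-, hP⟩ := h1 (r0 / 2) (by positivity) (by linarith)
    obtain ⟨c, hc⟩ := loc_const hD one_pos (by positivity) hP v hv
    refine ⟨c, _, hP.opn, ⟨0, zero_int (by positivity), ?_⟩, ?_⟩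
    · show D.ψ i (D.φ i p + (D.A i (D.φ i p)).inverse 0) = p
      rw [map_zero, add_zero, hD.left i p hi]
    · filter_upwards [hc] with x hx hxO
      exact hx (image_mono interior_subset hxO)
  set U : ℝ → Set M := fun c => {p | ∃ O : Set M, IsOpen O ∧ p ∈ O ∧
      ∀ᵐ x ∂μ, x ∈ O → (v.1.fst : M → ℝ) x = c} with hU
  have hopen : ∀ c, IsOpen (U c) := by
    intro c
    rw [isOpen_iff_mem_nhds]
    rintro p ⟨O, hO, hpO, h⟩
    exact mem_of_superset (hO.mem_nhds hpO) fun q hq => ⟨O, hO, hq, h⟩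
  have hdisj : ∀ c d p, p ∈ U c → p ∈ U d → c = d := by
    rintro c d p ⟨O, hO, hpO, h⟩ ⟨O', hO', hpO', h'⟩
    by_contra hne
    have h1 := (tFin M μ D hD).2 (O ∩ O') (hO.inter hO') ⟨p, hpO, hpO'⟩
    have h2 : μ (O ∩ O') = 0 := by
      rw [measure_eq_zero_iff_ae_notMem]
      filter_upwards [h, h'] with x a1 a2 hx
      exact hne ((a1 hx.1).symm.trans (a2 hx.2))
    rw [h2] at h1
    exact lt_irrefl _ h1
  obtain ⟨p0⟩ := ‹Nonempty M›
  obtain ⟨c, O0, hO0⟩ := hloc p0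
  have hcl : IsClopen (U c) := by
    refine ⟨?_, hopen c⟩
    rw [← isOpen_compl_iff]
    have h1 : (U c)ᶜ = ⋃ d ∈ {d | d ≠ c}, U d := by
      ext p
      simp only [mem_compl_iff, mem_iUnion]
      constructor
      · intro hp
        obtain ⟨d, O, hO⟩ := hloc p
        refine ⟨d, ?_, O, hO⟩
        rintro rfl
        exact hp ⟨O, hO⟩
      · rintro ⟨d, hd, hp⟩ hpc
        exact hd (hdisj _ _ p hp hpc)
    rw [h1]
    exact isOpen_biUnion fun d _ => hopen d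
  have huniv := hcl.eq_univ ⟨p0, O0, hO0⟩
  refine ⟨c, ?_⟩
  have h1 : μ {x | (v.1.fst : M → ℝ) x ≠ c} = 0 := by
    refine measure_null_of_locally_null _ fun x _ => ?_
    obtain ⟨O, hO, hxO, h⟩ : x ∈ U c := huniv ▸ mem_univ x
    refine ⟨O ∩ {x | (v.1.fst : M → ℝ) x ≠ c}, ?_, ?_⟩
    · exact inter_mem (mem_nhdsWithin_of_mem_nhds (hO.mem_nhds hxO)) self_mem_nhdsWithin
    · rw [measure_eq_zero_iff_ae_notMem]
      filter_upwards [h] with y hy hy'
      exact hy'.2 (hy hy'.1)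
  exact h1

/-- the second eigenvalue of a connected surface is positive -/
theorem pos_one [PreconnectedSpace M] [Nonempty M] (hD : D.IsSurf μ)
    (i : HF D μ →L[ℝ] Lp ℝ 2 μ) (a : HF D μ →L[ℝ] HF D μ →L[ℝ] ℝ)
    (hSf : Sf μ i a) (hi : ∀ v, i v = v.1.fst) (ha : ∀ u v, a u v = inner ℝ u.1.snd v.1.snd)
    (b : C(M, ℝ) → HF D μ →L[ℝ] HF D μ →L[ℝ] ℝ) (hB : IsB μ i b)
    {φ : C(M, ℝ)} {e : ℕ → HF D μ} {E : ℕ → ℝ} (hE : Eg a (b φ) e E) : 0 < E 1 := by
  obtain ⟨hF, hA, hexp, hk⟩ := Pool.Agent.Q205.QLim.facts μ i a b hSf hB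
  have hE0 : ∀ l, 0 ≤ E l := by
    intro l
    have h1 := (hF φ).na (e l)
    rw [hE.eig, hE.orth, if_pos rfl, mul_one] at h1
    exact h1
  by_contra hno
  have h1 : E 1 = 0 := le_antisymm (not_lt.1 hno) (hE0 1)
  have h0 : E 0 = 0 := le_antisymm ((hE.mono (zero_le_one)).trans h1.le) (hE0 0)
  have hsnd : ∀ l, E l = 0 → (e l).1.snd = 0 := by
    intro l hl
    have h2 := hE.eig l (e l)
    rw [hl, zero_mul, ha, real_inner_self_eq_norm_sq] at h2
    exact norm_eq_zero.1 (pow_eq_zero_iff two_ne_zero |>.1 h2)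
  obtain ⟨c0, hc0⟩ := glob_const hD (e 0) (hsnd 0 h0)
  obtain ⟨c1, hc1⟩ := glob_const hD (e 1) (hsnd 1 h1)
  have hbc : ∀ (u v : HF D μ) (c d : ℝ), (∀ᵐ x ∂μ, (u.1.fst : M → ℝ) x = c) →
      (∀ᵐ x ∂μ, (v.1.fst : M → ℝ) x = d) → b φ u v = c * d * ∫ x, Real.exp (φ x) ∂μ := by
    intro u v c d hu hv
    rw [hB, hi, hi, ← integral_const_mul]
    refine integral_congr_ae ?_
    filter_upwards [hu, hv] with x a1 a2
    rw [a1, a2]
    ring
  have k01 := hbc _ _ _ _ hc0 hc1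
  have k00 := hbc _ _ _ _ hc0 hc0
  have k11 := hbc _ _ _ _ hc1 hc1
  rw [hE.orth, if_neg (by norm_num)] at k01
  rw [hE.orth, if_pos rfl] at k00 k11
  have hAφ := (hA φ).ne'
  rcases mul_eq_zero.1 k01.symm with h | h
  · rcases mul_eq_zero.1 h with h' | h'
    · rw [h'] at k00
      simp at k00
    · rw [h'] at k11
      simp at k11
  · exact hAφ h

end Pool.Agent.K7.H58.RM
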