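import Pool.Agent.Y264.QR.All
import Pool.Agent.Y708.QE.Gr
import Pool.Agent.K7.H58.RM.Ax

/-!
# An eigenfunction with a positive eigenvalue comes close to zero
-/

set_option autoImplicit false

open Set Filter Topology MeasureTheory
open scoped Real ContDiff

noncomputable section

namespace Pool.Agent.K7.H58.RM

open Pool.Agent.Y262.QE Pool.Agent.Y264.QR

theorem grd_smul (A : ℂ →L[ℝ] ℂ) (P : ℂ →L[ℝ] ℝ) (α : ℝ) : grd A (α • P) = α • grd A P := by
  have := Pool.Agent.Y708.QE.grd_lin A P 0 α 0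
  simpa using this

variable {M : Type} [MetricSpace M] [CompactSpace M] [MeasurableSpace M] [BorelSpace M]
  {μ : Measure M} {D : Data M}

omit [MetricSpace M] [CompactSpace M] [MeasurableSpace M] [BorelSpace M] in
theorem comp_C1 {F : M → ℝ} (hF : D.C1 F) {g : ℝ → ℝ} (hg : ContDiff ℝ 1 g) :
    D.C1 fun x => g (F x) := fun i => hg.comp_contDiffOn (hF i)

theorem comp_gr (hD : D.IsSurf μ) {F : M → ℝ} (hF : D.C1 F) {g : ℝ → ℝ} (hg : ContDiff ℝ 1 g)
    (x : M) : D.gr (fun x => g (F x)) x = deriv g (F x) • D.gr F x := by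
  obtain ⟨i, hi⟩ := Pool.Agent.Y708.QE.pc_ex hD x
  rw [Pool.Agent.Y708.QE.gr_eq hi, Pool.Agent.Y708.QE.gr_eq hi]
  unfold Data.gc
  rw [← grd_smul]
  congr 1
  unfold Data.dc
  have h1 : DifferentiableAt ℝ (fun z => F (D.ψ i z)) (D.φ i x) :=
    ((hF i).contDiffAt ((hD.openT i).mem_nhds ⟨x, hi.1, rfl⟩)).differentiableAt one_ne_zero
  have h2 : HasDerivAt g (deriv g (F (D.ψ i (D.φ i x)))) (F (D.ψ i (D.φ i x))) :=
    (hg.differentiable one_ne_zero).differentiableAt.hasDerivAt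
  have h3 := h2.comp_hasFDerivAt (D.φ i x) h1.hasFDerivAt
  rw [hD.left i x hi.1] at h3
  exact h3.fderiv

theorem l2sq {E : Type} [NormedAddCommGroup E] [InnerProductSpace ℝ E] (f : Lp E 2 μ) :
    ‖f‖ ^ 2 = ∫ x, ‖f x‖ ^ 2 ∂μ := by
  rw [← real_inner_self_eq_norm_sq, L2.inner_def]
  exact integral_congr_ae (Eventually.of_forall fun x => real_inner_self_eq_norm_sq _)

theorem sg_abs (s t : ℝ) : |sg s t| ≤ 1 := by
  unfold sg
  have h0 := Real.smoothTransition.nonneg ((t / s + 1) / 2)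
  have h1 := Real.smoothTransition.le_one ((t / s + 1) / 2)
  rw [abs_le]
  constructor <;> linarith

variable [IsFiniteMeasure μ]

theorem sign_mem (hD : D.IsSurf μ) (v : HF D μ) {δ : ℝ} (hδ : 0 < δ)
    (h : ∀ᵐ x ∂μ, δ ≤ |(v.1.fst : M → ℝ) x|) : ∃ σ : HF D μ, σ.1.snd = 0 ∧
      ∀ᵐ x ∂μ, (σ.1.fst : M → ℝ) x * (v.1.fst : M → ℝ) x = |(v.1.fst : M → ℝ) x| := by
  set s : ℝ := δ / 2 with hs
  have hs0 : 0 < s := by positivity
  have hsδ : s < δ := by rw [hs]; linarith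
  obtain ⟨L, hL1, hL2⟩ := sg_bound hs0
  obtain ⟨F, f, hF, hf⟩ := (tDenF M μ D hD).2 v.1 v.2
  have hg := sg_smooth s
  have hgc : Continuous (deriv (sg s)) := hg.continuous_deriv le_rfl
  have hfst : Tendsto (fun k => (f k).fst) atTop (𝓝 v.1.fst) :=
    ((WithLp.fstL 2 ℝ (Lp ℝ 2 μ) (Lp ℂ 2 μ)).continuous.tendsto _).comp hf
  have hsnd : Tendsto (fun k => (f k).snd) atTop (𝓝 v.1.snd) :=
    ((WithLp.sndL 2 ℝ (Lp ℝ 2 μ) (Lp ℂ 2 μ)).continuous.tendsto _).comp hf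
  choose w hw1 hw2 hw3 using fun k => (tDenF M μ D hD).1 _ (comp_C1 (hF k).1 hg)
  -- the limit
  have hm1 : MemLp (fun x => sg s ((v.1.fst : M → ℝ) x)) 2 μ :=
    MemLp.of_bound (hg.continuous.comp_aestronglyMeasurable (Lp.aestronglyMeasurable _)) 1
      (Eventually.of_forall fun x => sg_abs _ _)
  set σ : WithLp 2 (Lp ℝ 2 μ × Lp ℂ 2 μ) := WithLp.toLp 2 (hm1.toLp, 0) with hσ
  have hσ1 : (σ.fst : M → ℝ) =ᵐ[μ] fun x => sg s ((v.1.fst : M → ℝ) x) := hm1.coeFn_toLp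
  have hσ2 : σ.snd = 0 := rfl
  -- convergence of the functions
  have t1 : Tendsto (fun k => ‖(w k).fst - σ.fst‖) atTop (𝓝 0) := by
    have h1 : ∀ k, ‖(w k).fst - σ.fst‖ ≤ L * ‖(f k).fst - v.1.fst‖ := by
      intro k
      refine Lp.norm_le_mul_norm_of_ae_le_mul ?_
      filter_upwards [Lp.coeFn_sub (w k).fst σ.fst, Lp.coeFn_sub (f k).fst v.1.fst, hσ1, hw2 k,
        (hF k).2.2.1] with x a1 a2 a3 a4 a5
      rw [a1, a2, Pi.sub_apply, Pi.sub_apply, a3, a4, a5]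
      have := hL2.dist_le_mul (F k x) ((v.1.fst : M → ℝ) x)
      rwa [dist_eq_norm, dist_eq_norm] at this
    refine squeeze_zero (fun k => norm_nonneg _) h1 ?_
    have h2 := (tendsto_iff_norm_sub_tendsto_zero.1 hfst).const_mul (L : ℝ)
    rwa [mul_zero] at h2
  -- a subsequence
  obtain ⟨ns, hns, hae⟩ := (tendstoInMeasure_of_tendsto_Lp hfst).exists_seq_tendsto_ae
  have hint : ∀ g : Lp ℂ 2 μ, Integrable (fun x => ‖(g : M → ℂ) x‖ ^ 2) μ := fun g =>
    (Lp.memLp g).integrable_norm_pow two_ne_zero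
  have t2 : Tendsto (fun k => ‖(w (ns k)).snd‖ ^ 2) atTop (𝓝 0) := by
    have h1 : Tendsto (fun k => 2 * (L : ℝ) ^ 2 * ‖(f (ns k)).snd - v.1.snd‖ ^ 2) atTop (𝓝 0) := by
      have h2 := (((tendsto_iff_norm_sub_tendsto_zero.1 hsnd).comp hns.tendsto_atTop).pow 2).const_mul
        (2 * (L : ℝ) ^ 2)
      simpa using h2
    have h3 : Tendsto (fun k => ∫ x, 2 * (|deriv (sg s) (F (ns k) x)| ^ 2 *
        ‖(v.1.snd : M → ℂ) x‖ ^ 2) ∂μ) atTop (𝓝 (∫ _, (0 : ℝ) ∂μ)) := by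
      refine tendsto_integral_of_dominated_convergence
        (fun x => 2 * ((L : ℝ) ^ 2 * ‖(v.1.snd : M → ℂ) x‖ ^ 2)) ?_ ?_ ?_ ?_
      · intro k
        have hFc := Pool.Agent.Y708.QE.C1_cont hD (hF (ns k)).1
        refine AEStronglyMeasurable.const_mul (AEStronglyMeasurable.mul ?_
          (hint v.1.snd).aestronglyMeasurable) 2
        exact ((hgc.comp hFc).abs.pow 2).aestronglyMeasurable
      · exact ((hint v.1.snd).const_mul _).const_mul _
      · intro k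
        refine Eventually.of_forall fun x => ?_
        rw [Real.norm_eq_abs, abs_of_nonneg (by positivity)]
        have h5 : |deriv (sg s) (F (ns k) x)| ^ 2 ≤ (L : ℝ) ^ 2 :=
          pow_le_pow_left₀ (abs_nonneg _) (hL1 _) 2
        gcongr
      · have hall : ∀ᵐ x ∂μ, ∀ k, ((f (ns k)).fst : M → ℝ) x = F (ns k) x := by
          rw [ae_all_iff]
          exact fun k => (hF (ns k)).2.2.1
        filter_upwards [hae, hall, h] with x b1 b2 b3
        have h6 : Tendsto (fun k => F (ns k) x) atTop (𝓝 ((v.1.fst : M → ℝ) x)) :=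
          b1.congr fun k => b2 k
        have h7 := (hgc.tendsto _).comp h6
        rw [sg_deriv hs0 (lt_of_lt_of_le hsδ b3)] at h7
        have h8 := ((h7.abs.pow 2).mul_const (‖(v.1.snd : M → ℂ) x‖ ^ 2)).const_mul 2
        simpa using h8
    rw [integral_zero] at h3
    have h4 := h1.add h3
    rw [add_zero] at h4
    refine squeeze_zero (fun k => by positivity) (fun k => ?_) h4
    rw [l2sq, l2sq, ← integral_const_mul, ← integral_add]
    · refine integral_mono_ae (hint _) ?_ ?_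
      · refine ((hint _).const_mul _).add ?_
        refine Integrable.mono' (((hint v.1.snd).const_mul ((L : ℝ) ^ 2)).const_mul 2) ?_
          (Eventually.of_forall fun x => ?_)
        · have hFc := Pool.Agent.Y708.QE.C1_cont hD (hF (ns k)).1
          refine AEStronglyMeasurable.const_mul (AEStronglyMeasurable.mul ?_
            (hint v.1.snd).aestronglyMeasurable) 2
          exact ((hgc.comp hFc).abs.pow 2).aestronglyMeasurable
        · rw [Real.norm_eq_abs, abs_of_nonneg (by positivity)]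
          have h5 : |deriv (sg s) (F (ns k) x)| ^ 2 ≤ (L : ℝ) ^ 2 :=
            pow_le_pow_left₀ (abs_nonneg _) (hL1 _) 2
          gcongr
      · filter_upwards [Lp.coeFn_sub (f (ns k)).snd v.1.snd, hw3 (ns k),
          (hF (ns k)).2.2.2] with x a1 a2 a3
        rw [a2, comp_gr hD (hF (ns k)).1 hg, a1, Pi.sub_apply, a3]
        set d := deriv (sg s) (F (ns k) x) with hd
        set p := D.gr (F (ns k)) x
        set q := (v.1.snd : M → ℂ) x
        have h5 : |d| ^ 2 ≤ (L : ℝ) ^ 2 := pow_le_pow_left₀ (abs_nonneg _) (hL1 _) 2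
        have h6 : ‖d • p‖ ≤ |d| * ‖p - q‖ + |d| * ‖q‖ := by
          rw [norm_smul, Real.norm_eq_abs, ← mul_add]
          refine mul_le_mul_of_nonneg_left ?_ (abs_nonneg _)
          calc ‖p‖ = ‖(p - q) + q‖ := by rw [sub_add_cancel]
            _ ≤ _ := norm_add_le _ _
        have h7 : ‖d • p‖ ^ 2 ≤ 2 * (|d| ^ 2 * ‖p - q‖ ^ 2) + 2 * (|d| ^ 2 * ‖q‖ ^ 2) := by
          have h8 : ‖d • p‖ ^ 2 ≤ (|d| * ‖p - q‖ + |d| * ‖q‖) ^ 2 :=
            pow_le_pow_left₀ (norm_nonneg _) h6 2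
          nlinarith [sq_nonneg (|d| * ‖p - q‖ - |d| * ‖q‖)]
        have h9 : |d| ^ 2 * ‖p - q‖ ^ 2 ≤ (L : ℝ) ^ 2 * ‖p - q‖ ^ 2 := by gcongr
        show ‖d • p‖ ^ 2 ≤ 2 * (L : ℝ) ^ 2 * ‖p - q‖ ^ 2 + 2 * (|d| ^ 2 * ‖q‖ ^ 2)
        linarith
    · exact (hint _).const_mul _
    · refine Integrable.mono' (((hint v.1.snd).const_mul ((L : ℝ) ^ 2)).const_mul 2) ?_
        (Eventually.of_forall fun x => ?_)
      · have hFc := Pool.Agent.Y708.QE.C1_cont hD (hF (ns k)).1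
        refine AEStronglyMeasurable.const_mul (AEStronglyMeasurable.mul ?_
          (hint v.1.snd).aestronglyMeasurable) 2
        exact ((hgc.comp hFc).abs.pow 2).aestronglyMeasurable
      · rw [Real.norm_eq_abs, abs_of_nonneg (by positivity)]
        have h5 : |deriv (sg s) (F (ns k) x)| ^ 2 ≤ (L : ℝ) ^ 2 :=
          pow_le_pow_left₀ (abs_nonneg _) (hL1 _) 2
        gcongr
  have t3 : Tendsto (fun k => w (ns k)) atTop (𝓝 σ) := by
    rw [tendsto_iff_norm_sub_tendsto_zero]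
    have h1 : Tendsto (fun k => ‖w (ns k) - σ‖ ^ 2) atTop (𝓝 0) := by
      have h2 := ((t1.comp hns.tendsto_atTop).pow 2).add t2
      simp only [ne_eq, OfNat.ofNat_ne_zero, not_false_eq_true, zero_pow, add_zero] at h2
      refine h2.congr fun k => ?_
      rw [WithLp.prod_norm_sq_eq_of_L2]
      have e1 : (w (ns k) - σ).fst = (w (ns k)).fst - σ.fst := rfl
      have e2 : (w (ns k) - σ).snd = (w (ns k)).snd - σ.snd := rfl
      rw [e1, e2, hσ2, sub_zero]
      rfl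
    have h2 := h1.sqrt
    rw [Real.sqrt_zero] at h2
    exact h2.congr fun k => Real.sqrt_sq (norm_nonneg _)
  have hmem : σ ∈ HF D μ := by
    have hc : IsClosed (HF D μ : Set (WithLp 2 (Lp ℝ 2 μ × Lp ℂ 2 μ))) :=
      Submodule.isClosed_topologicalClosure _
    exact hc.mem_of_tendsto t3 (Eventually.of_forall fun k => hw1 (ns k))
  refine ⟨⟨σ, hmem⟩, hσ2, ?_⟩
  filter_upwards [hσ1, h] with x a1 a2
  show (σ.fst : M → ℝ) x * _ = _
  rw [a1]
  rcases le_abs.1 a2 with h5 | h5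
  · rw [sg_one hs0 (by linarith), one_mul, abs_of_nonneg (by linarith)]
  · rw [sg_neg hs0 (by linarith), abs_of_nonpos (by linarith)]
    ring

/-- an eigenvector with a positive eigenvalue is not bounded away from zero -/
theorem no_gap (hD : D.IsSurf μ) (i : HF D μ →L[ℝ] Lp ℝ 2 μ) (a : HF D μ →L[ℝ] HF D μ →L[ℝ] ℝ)
    (hi : ∀ v, i v = v.1.fst) (ha : ∀ u v, a u v = inner ℝ u.1.snd v.1.snd)
    (b : C(M, ℝ) → HF D μ →L[ℝ] HF D μ →L[ℝ] ℝ) (hB : IsB μ i b)
    (hA : ∀ φ : C(M, ℝ), 0 < ∫ x, Real.exp (φ x) ∂μ) (φ : C(M, ℝ)) (v : HF D μ) (E : ℝ)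
    (hE : 0 < E) (he : ∀ w, a v w = E * b φ v w) (δ : ℝ) (hδ : 0 < δ)
    (h : ∀ᵐ x ∂μ, δ ≤ |i v x|) : False := by
  rw [hi] at h
  obtain ⟨σ, hσ1, hσ2⟩ := sign_mem hD v hδ h
  have h1 : a v σ = 0 := by rw [ha, hσ1, inner_zero_right]
  rw [he] at h1
  have h2 : b φ v σ = 0 := (mul_eq_zero.1 h1).resolve_left hE.ne'
  rw [hB, hi, hi] at h2
  have h3 : ∫ x, Real.exp (φ x) * |(v.1.fst : M → ℝ) x| ∂μ = 0 := by
    rw [← h2]
    refine integral_congr_ae ?_
    filter_upwards [hσ2] with x hx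
    rw [← hx]
    ring
  have hi1 : Integrable (fun x => Real.exp (φ x) * |(v.1.fst : M → ℝ) x|) μ := by
    have h4 : Integrable (fun x => |(v.1.fst : M → ℝ) x|) μ :=
      ((Lp.memLp v.1.fst).integrable (by norm_num)).abs
    have := Pool.Agent.Y378.QR.cint (μ := μ)
      (⟨fun x => Real.exp (φ x), Pool.Agent.Y378.QR.expc φ⟩ : C(M, ℝ)) h4
    exact this
  have h5 : δ * ∫ x, Real.exp (φ x) ∂μ ≤ ∫ x, Real.exp (φ x) * |(v.1.fst : M → ℝ) x| ∂μ := by
    rw [← integral_const_mul]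
    refine integral_mono_ae ((Pool.Agent.Y378.QR.eint φ).const_mul δ) hi1 ?_
    filter_upwards [h] with x hx
    show δ * Real.exp (φ x) ≤ Real.exp (φ x) * |(v.1.fst : M → ℝ) x|
    rw [mul_comm]
    exact mul_le_mul_of_nonneg_left hx (Real.exp_pos _).le
  rw [h3] at h5
  have := hA φ
  have : 0 < δ * ∫ x, Real.exp (φ x) ∂μ := by positivity
  linarith

end Pool.Agent.K7.H58.RM
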