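import Pool.Agent.Q205.QLim.Fin
import Pool.Agent.Q205.Lim.Surf
import Pool.Agent.K7.H58.RM.Sgn

/-!
# The derivatives of the differences of two levels do not vanish
-/

set_option autoImplicit false

open Set Filter Topology MeasureTheory
open scoped Real ContDiff

noncomputable section

namespace Pool.Agent.K7.H58.RM

open Pool.Agent.Y262.QE Pool.Agent.Y264.QR Pool.Agent.Q205.QLim Pool.Agent.Q205.Baire
open Pool.Agent.Y319.QR

section abs

variable {M : Type} [MetricSpace M] [CompactSpace M] [MeasurableSpace M] [BorelSpace M]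
  (μ : Measure M) [IsFiniteMeasure μ] {H : Type} [NormedAddCommGroup H] [InnerProductSpace ℝ H]
  (i : H →L[ℝ] Lp ℝ 2 μ) (a : H →L[ℝ] H →L[ℝ] ℝ) (b : C(M, ℝ) → H →L[ℝ] H →L[ℝ] ℝ)
  (hSf : Sf μ i a) (hB : IsB μ i b)
  (hex : ∀ φ, ∃ (e : ℕ → H) (E : ℕ → ℝ), Eg a (b φ) e E)

include hSf hB hex

/-- the derivative of all branches at a point of differentiability, for all unit eigenvectors -/
theorem point' (h φ : C(M, ℝ))
    (hdiff : ∀ l, DifferentiableAt ℝ (fun t : ℝ => Ev a (b (φ + t • h)) l) 0) (j : ℕ) (v : H)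
    (hv : UE a (b φ) (Ev a (b φ) j) v) :
    HasDerivAt (fun t : ℝ => Ev a (b (φ + t • h)) j) (-(kap μ i h φ v * Ev a (b φ) j)) 0 := by
  obtain ⟨hF, hA, hexp, hk⟩ := facts μ i a b hSf hB
  obtain ⟨k, ksym, k1, k2⟩ := hk h
  obtain ⟨l1, l2, l3, -, l5⟩ := Pool.Agent.Y390.QR.LIP.lip M μ H a b hF hexp
  obtain ⟨e, E, hEg⟩ := hex φ
  have hE : ∀ l, Ev a (b φ) l = E l :=
    fun l => Pool.Agent.Y592.QE.mm H a (b φ) (hF φ) e E hEg l
  have hexi : ∃ i, E i = E j := ⟨j, rfl⟩
  classical
  obtain ⟨i0, hi0, hmin⟩ : ∃ i0, E i0 = E j ∧ ∀ l, l < i0 → E l < E i0 := by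
    refine ⟨Nat.find hexi, Nat.find_spec hexi, fun l hl => ?_⟩
    have h1 : E l ≤ E (Nat.find hexi) := hEg.mono hl.le
    have h2 : E l ≠ E (Nat.find hexi) := by
      intro h3
      exact Nat.find_min hexi hl (h3.trans (Nat.find_spec hexi))
    exact lt_of_le_of_ne h1 h2
  have hv0 : UE a (b φ) (E i0) v := by rw [hi0, ← hE]; exact hv
  have hz : φ + (0 : ℝ) • h = φ := by rw [zero_smul, add_zero]
  have h1 : HasDerivAt (fun t : ℝ => Ev a (b (φ + t • h)) i0) (-(kap μ i h φ v * E i0)) 0 := by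
    refine der_of_upper _ (hdiff i0) fun ε hε => ?_
    obtain ⟨δ, hδ, hup⟩ := der0' a (b φ) (hF _) e E hEg (k φ) ‖h‖ (ksym _) (fun v => (k1 _ v).2) i0
      v hv0 hmin ε hε
    refine ⟨δ, hδ, fun τ hτ => ?_⟩
    have h2 := hup τ hτ (b (φ + τ • h)) (fun v => k2 φ v τ)
    rw [(k1 φ v).1] at h2
    show Ev a (b (φ + τ • h)) i0 ≤ Ev a (b (φ + (0 : ℝ) • h)) i0 + _ + _
    rw [hz, hE i0]
    linarith
  have hij : i0 ≤ j := by
    by_contra hlt
    push_neg at hlt
    have := hmin j hlt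
    rw [hi0] at this
    exact lt_irrefl _ this
  have h2 := der_of_touch h1 (hdiff j) (fun t => l2 _ _ _ hij) (by
    show Ev a (b (φ + (0 : ℝ) • h)) i0 = Ev a (b (φ + (0 : ℝ) • h)) j
    rw [hz, hE, hE, hi0])
  rw [hE j, ← hi0]
  exact h2

/-- the derivative of a level -/
theorem unf_der (h φ : C(M, ℝ)) (j : ℕ) (v : H)
    (hd : HasDerivAt (fun t : ℝ => Ev a (b (φ + t • h)) j) (-(kap μ i h φ v * Ev a (b φ) j)) 0) :
    HasDerivAt (fun t : ℝ => unf μ a b j (φ + t • h))
      ((∫ x, Real.exp (φ x) ∂μ) / (4 * π) * (Ev a (b φ) j * (avg μ h φ - kap μ i h φ v))) 0 := by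
  obtain ⟨hF, hA, hexp, hk⟩ := facts μ i a b hSf hB
  have h1 := Pool.Agent.Y155.QR.hdA μ φ h 0
  have hz : φ + (0 : ℝ) • h = φ := by rw [zero_smul, add_zero]
  rw [hz] at h1
  have h2 := (h1.div_const (4 * π)).mul hd
  rw [hz] at h2
  refine h2.congr_deriv ?_
  unfold avg
  have := (hA φ).ne'
  field_simp
  ring

end abs

section surf

variable {M : Type} [MetricSpace M] [CompactSpace M] [MeasurableSpace M] [BorelSpace M]
  {μ : Measure M} {D : Data M} [IsFiniteMeasure μ]

/-- The core: the differentials of the differences `x k - θ x j` do not vanish. -/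
theorem core (hD : D.IsSurf μ) (i : HF D μ →L[ℝ] Lp ℝ 2 μ) (a : HF D μ →L[ℝ] HF D μ →L[ℝ] ℝ)
    (hSf : Sf μ i a) (hi : ∀ v, i v = v.1.fst) (ha : ∀ u v, a u v = inner ℝ u.1.snd v.1.snd)
    (b : C(M, ℝ) → HF D μ →L[ℝ] HF D μ →L[ℝ] ℝ) (hB : IsB μ i b)
    {φ : C(M, ℝ)} {e : ℕ → HF D μ} {E : ℕ → ℝ} (hE : Eg a (b φ) e E) {j k : ℕ} (hjk : j < k)
    {θ : ℝ} (hθ0 : 0 ≤ θ) (hθ1 : θ ≤ 1) (hpos : 0 < E k)
    (hconst : ∀ f : C(M, ℝ), ∀ v w, UE a (b φ) (E k) v → UE a (b φ) (E k) w →
      kap μ i f φ v = kap μ i f φ w)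
    (hid : ∀ h : C(M, ℝ), E k * (avg μ h φ - kap μ i h φ (e k)) =
      θ * (E j * (avg μ h φ - kap μ i h φ (e j)))) : False := by
  obtain ⟨hF, hA, hexp, hk⟩ := facts μ i a b hSf hB
  have hAφ := hA φ
  set A := ∫ x, Real.exp (φ x) ∂μ with hAdef
  have hE0 : 0 ≤ E j := by
    have h1 := (hF φ).na (e j)
    rw [hE.eig, hE.orth, if_pos rfl, mul_one] at h1
    exact h1
  have hjk' : E j ≤ E k := hE.mono hjk.le
  by_cases hc : 0 < E k - θ * E j
  · -- the densities
    have hm : ∀ v : HF D μ, Measurable fun x => Real.exp (φ x) * (i v x) ^ 2 := fun v =>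
      (Real.continuous_exp.comp φ.continuous).measurable.mul
        ((Lp.stronglyMeasurable (i v)).measurable.pow_const 2)
    have hw := fun v : HF D μ => Pool.Agent.Y378.QR.wint (i := i) φ v
    have h1 : (fun x => E k * (Real.exp (φ x) * (i (e k) x) ^ 2)) =ᵐ[μ]
        fun x => θ * E j * (Real.exp (φ x) * (i (e j) x) ^ 2) +
          (E k - θ * E j) / A * Real.exp (φ x) := by
      refine ae_eq_of_int μ _ _ ((hm _).const_mul _) (((hm _).const_mul _).add
        ((Real.continuous_exp.comp φ.continuous).measurable.const_mul _)) ?_ ?_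
        ((hw _).const_mul _) (((hw _).const_mul _).add
          ((Pool.Agent.Y378.QR.eint φ).const_mul _)) ?_
      · intro x
        exact mul_nonneg hpos.le (mul_nonneg (Real.exp_pos _).le (sq_nonneg _))
      · intro x
        have := Real.exp_pos (φ x)
        have h5 : 0 ≤ (E k - θ * E j) / A := div_nonneg hc.le hAφ.le
        positivity
      · intro f
        have e1 : ∫ x, f x * (E k * (Real.exp (φ x) * (i (e k) x) ^ 2)) ∂μ =
            E k * kap μ i f φ (e k) := by
          unfold kap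
          rw [← integral_const_mul]
          exact integral_congr_ae (Eventually.of_forall fun x => by ring)
        have e2 : ∫ x, f x * (θ * E j * (Real.exp (φ x) * (i (e j) x) ^ 2) +
            (E k - θ * E j) / A * Real.exp (φ x)) ∂μ =
            θ * E j * kap μ i f φ (e j) + (E k - θ * E j) * avg μ f φ := by
          unfold kap avg
          rw [← hAdef, mul_div_assoc', mul_comm (E k - θ * E j) (∫ x, f x * Real.exp (φ x) ∂μ),
            mul_div_assoc, mul_comm (∫ x, f x * Real.exp (φ x) ∂μ), ← integral_const_mul,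
            ← integral_const_mul, ← integral_add]
          · exact integral_congr_ae (Eventually.of_forall fun x => by ring)
          · exact (Pool.Agent.Y378.QR.cint f (hw _)).const_mul _
          · exact (Pool.Agent.Y378.QR.cint f (Pool.Agent.Y378.QR.eint φ)).const_mul _
        rw [e1, e2]
        have := hid f
        linarith
    -- the lower bound
    set c : ℝ := (E k - θ * E j) / (A * E k) with hcdef
    have hc0 : 0 < c := by positivity
    have h2 : ∀ᵐ x ∂μ, Real.sqrt c ≤ |i (e k) x| := by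
      filter_upwards [h1] with x hx
      have h3 : E k * (i (e k) x) ^ 2 = θ * E j * (i (e j) x) ^ 2 + (E k - θ * E j) / A := by
        have h4 := Real.exp_pos (φ x)
        have h5 : Real.exp (φ x) * (E k * (i (e k) x) ^ 2) =
            Real.exp (φ x) * (θ * E j * (i (e j) x) ^ 2 + (E k - θ * E j) / A) := by
          linarith
        exact mul_left_cancel₀ h4.ne' h5
      rw [← Real.sqrt_sq_eq_abs]
      refine Real.sqrt_le_sqrt ?_
      have h6 : c * E k = (E k - θ * E j) / A := by rw [hcdef]; field_simp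
      have h7 : 0 ≤ θ * E j * (i (e j) x) ^ 2 := by positivity
      have h8 : c * E k ≤ (i (e k) x) ^ 2 * E k := by rw [h6]; linarith
      exact le_of_mul_le_mul_right h8 hpos
    exact no_gap hD i a hi ha b hB hA φ (e k) (E k) hpos (hE.eig k) (Real.sqrt c)
      (Real.sqrt_pos.2 hc0) h2
  · have h1 : E j = E k := by nlinarith
    have h2 := simple_of_const μ i a b hSf hB hE (j := j) (by rw [h1]; exact hconst)
    have h3 : E (j + 1) ≤ E k := hE.mono hjk
    linarith

end surf

end Pool.Agent.K7.H58.RM
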