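import Pool.Agent.K7.H58.RM.Pt

/-!
# Random conformal metrics: the laws of the levels and of their differences
-/

set_option autoImplicit false

open Set Filter Topology MeasureTheory
open scoped Real ContDiff

noncomputable section

namespace Pool.Agent.K7.H58.RM

open Pool.Agent.Y262.QE Pool.Agent.Y264.QR Pool.Agent.Q205.QLim Pool.Agent.Q205.Baire
open Pool.Agent.Y319.QR

theorem countable_span {M : Type} [MetricSpace M] [CompactSpace M] (S : Set C(M, ℝ))
    (hS : Dense (Submodule.span ℝ S : Set C(M, ℝ))) : ∃ S' : Set C(M, ℝ), S'.Countable ∧ S' ⊆ S ∧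
      Dense (Submodule.span ℝ S' : Set C(M, ℝ)) := by
  have h1 : TopologicalSpace.IsSeparable S := TopologicalSpace.IsSeparable.of_separableSpace S
  haveI := h1.separableSpace
  obtain ⟨t, htc, htd⟩ := TopologicalSpace.exists_countable_dense S
  refine ⟨Subtype.val '' t, htc.image _, by rintro _ ⟨x, -, rfl⟩; exact x.2, ?_⟩
  have h2 : S ⊆ closure (Subtype.val '' t) := by
    intro x hx
    have h3 := htd.closure_eq ▸ mem_univ (⟨x, hx⟩ : S)
    have h4 := image_closure_subset_closure_image continuous_subtype_val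
      (mem_image_of_mem (Subtype.val : S → C(M, ℝ)) h3)
    exact h4
  have h3 : (Submodule.span ℝ S : Set C(M, ℝ)) ⊆
      ((Submodule.span ℝ (Subtype.val '' t)).topologicalClosure : Set C(M, ℝ)) := by
    rw [SetLike.coe_subset_coe, Submodule.span_le]
    refine h2.trans ?_
    rw [Submodule.topologicalClosure_coe]
    exact closure_mono Submodule.subset_span
  rw [Submodule.topologicalClosure_coe] at h3
  have h4 := hS.mono h3
  rw [dense_iff_closure_eq, closure_closure] at h4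
  exact dense_iff_closure_eq.2 h4

section abs

variable {M : Type} [MetricSpace M] [CompactSpace M] [MeasurableSpace M] [BorelSpace M]
  (μ : Measure M) [IsFiniteMeasure μ] {H : Type} [NormedAddCommGroup H] [InnerProductSpace ℝ H]
  (i : H →L[ℝ] Lp ℝ 2 μ) (a : H →L[ℝ] H →L[ℝ] ℝ) (b : C(M, ℝ) → H →L[ℝ] H →L[ℝ] ℝ)

/-- the mass as a functional -/
def KapL (hSf : Sf μ i a) (hB : IsB μ i b) (φ : C(M, ℝ)) (v : H) : C(M, ℝ) →L[ℝ] ℝ :=
  LinearMap.mkContinuous
    { toFun := fun f => kap μ i f φ v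
      map_add' := fun f g => Pool.Agent.Y378.QR.kap_add f g φ v
      map_smul' := fun c f => Pool.Agent.Y378.QR.kap_smul c f φ v } (b φ v v) (by
      intro f
      obtain ⟨-, -, -, hk⟩ := facts μ i a b hSf hB
      obtain ⟨k, -, k1, -⟩ := hk f
      have h1 := (k1 φ v).2
      rw [(k1 φ v).1, mul_comm] at h1
      exact h1)

/-- the mean value as a functional -/
def AvgL (hA : ∀ φ : C(M, ℝ), 0 < ∫ x, Real.exp (φ x) ∂μ) (φ : C(M, ℝ)) : C(M, ℝ) →L[ℝ] ℝ :=
  LinearMap.mkContinuous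
    { toFun := fun f => avg μ f φ
      map_add' := fun f g => Pool.Agent.Y378.QR.avg_add f g φ
      map_smul' := fun c f => Pool.Agent.Y378.QR.avg_smul c f φ } 1 (by
      intro f
      rw [one_mul]
      exact Pool.Agent.Y155.QR.avg_le μ hA φ f)

variable (hSf : Sf μ i a) (hB : IsB μ i b)

include hSf hB in
/-- identities of masses extend from a set with dense span -/
theorem ext_const {S : Set C(M, ℝ)} (hS : Dense (Submodule.span ℝ S : Set C(M, ℝ)))
    {φ : C(M, ℝ)} {v w : H} (h : ∀ f ∈ S, kap μ i f φ v = kap μ i f φ w) (f : C(M, ℝ)) :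
    kap μ i f φ v = kap μ i f φ w := by
  have h1 : KapL μ i a b hSf hB φ v = KapL μ i a b hSf hB φ w :=
    ContinuousLinearMap.ext_on hS fun f hf => h f hf
  exact congrArg (fun T : C(M, ℝ) →L[ℝ] ℝ => T f) h1

include hSf hB in
theorem ext_id {S : Set C(M, ℝ)} (hS : Dense (Submodule.span ℝ S : Set C(M, ℝ)))
    {φ : C(M, ℝ)} {v w : H} {α β : ℝ} (h : ∀ f ∈ S, α * (avg μ f φ - kap μ i f φ v) =
      β * (avg μ f φ - kap μ i f φ w)) (f : C(M, ℝ)) :
    α * (avg μ f φ - kap μ i f φ v) = β * (avg μ f φ - kap μ i f φ w) := by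
  obtain ⟨-, hA, -, -⟩ := facts μ i a b hSf hB
  have h1 : α • (AvgL μ hA φ - KapL μ i a b hSf hB φ v) =
      β • (AvgL μ hA φ - KapL μ i a b hSf hB φ w) :=
    ContinuousLinearMap.ext_on hS fun f hf => h f hf
  exact congrArg (fun T : C(M, ℝ) →L[ℝ] ℝ => T f) h1

variable (hex : ∀ φ, ∃ (e : ℕ → H) (E : ℕ → ℝ), Eg a (b φ) e E) (hW : Wl μ a b)

include hSf hB in
theorem unf_cont (j : ℕ) : Continuous fun φ => unf μ a b j φ := by
  obtain ⟨hF, hA, hexp, hk⟩ := facts μ i a b hSf hB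
  obtain ⟨l1, l2, l3, l4, l5⟩ := Pool.Agent.Y390.QR.LIP.lip M μ H a b hF hexp
  exact ((cont_int μ).div_const _).mul (l4 j)

include hSf hB hex hW in
/-- the facts for one direction -/
theorem one_dir [MeasurableSpace C(M, ℝ)] [BorelSpace C(M, ℝ)] (P : Measure C(M, ℝ))
    [IsProbabilityMeasure P] (h : C(M, ℝ)) (hac : ∀ t : ℝ, P.map (fun φ => φ + t • h) ≪ P) :
    (∀ᵐ φ ∂P, ∀ l, DifferentiableAt ℝ (fun t : ℝ => Ev a (b (φ + t • h)) l) 0) ∧
    ∀ X : C(M, ℝ) → ℝ, Continuous X → ∀ N : Set ℝ, MeasurableSet N → volume N = 0 →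
      ∀ᵐ φ ∂P, X φ ∈ N → deriv (fun t : ℝ => X (φ + t • h)) 0 = 0 := by
  obtain ⟨hF, hA, hexp, hk⟩ := facts μ i a b hSf hB
  obtain ⟨l1, l2, l3, l4, l5⟩ := Pool.Agent.Y390.QR.LIP.lip M μ H a b hF hexp
  obtain ⟨hcm1, -, -, hcm4⟩ := Pool.Agent.Y689.QR.cm M μ
  have hFlw := hcm4 P h hac
  choose e E hEg using hex
  have hline : ∀ φ : C(M, ℝ), ∀ᵐ t : ℝ, ∀ j, DifferentiableAt ℝ
      (fun τ : ℝ => Ev a (b ((φ + t • h) + τ • h)) j) 0 := by
    intro φ
    have h1 := (tOneP M μ H i a b hSf hB hW φ h (fun t => e (φ + t • h))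
      (fun t => E (φ + t • h)) (fun t => hEg (φ + t • h))).1
    filter_upwards [h1] with t ht j
    exact (shift_der (G := fun φ => Ev a (b φ) j) (ht j)).differentiableAt
  constructor
  · rw [ae_all_iff]
    intro j
    have h1 : MeasurableSet {φ : C(M, ℝ) |
        ¬ DifferentiableAt ℝ (fun t : ℝ => Ev a (b (φ + t • h)) j) 0} :=
      (hcm1 (fun φ => Ev a (b φ) j) (l4 j) h).2.compl
    exact Pool.Agent.Y941.QR.qn C(M, ℝ) P (fun (t : ℝ) φ => φ + t • h) hFlw _ h1 (by
      intro φ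
      filter_upwards [hline φ] with t ht
      exact fun hn => hn (ht j))
  · intro X hX N hNm hN
    have h1 : MeasurableSet {φ : C(M, ℝ) |
        X φ ∈ N ∧ deriv (fun t : ℝ => X (φ + t • h)) 0 ≠ 0} := by
      refine (hX.measurable hNm).inter ?_
      exact (hcm1 X hX h).1 (measurableSet_singleton (0 : ℝ)).compl
    have h2 := Pool.Agent.Y941.QR.qn C(M, ℝ) P (fun (t : ℝ) φ => φ + t • h) hFlw _ h1 (by
      intro φ
      filter_upwards [ae_deriv_zero (fun t : ℝ => X (φ + t • h)) N hN] with t ht hmem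
      obtain ⟨h3, h4⟩ := hmem
      have hd : DifferentiableAt ℝ (fun τ : ℝ => X ((φ + t • h) + τ • h)) 0 := by
        by_contra hno
        exact h4 (deriv_zero_of_not_differentiableAt hno)
      have h5 : HasDerivAt (fun s : ℝ => X (φ + s • h))
          (deriv (fun τ : ℝ => X ((φ + t • h) + τ • h)) 0) t := by
        have h6 : HasDerivAt (fun s : ℝ => s - t) 1 t := (hasDerivAt_id t).sub_const t
        have h7 : HasDerivAt (fun τ : ℝ => X ((φ + t • h) + τ • h))
            (deriv (fun τ : ℝ => X ((φ + t • h) + τ • h)) 0) (t - t) := by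
          rw [sub_self]; exact hd.hasDerivAt
        have h8 := HasDerivAt.comp (h := fun s : ℝ => s - t) t h7 h6
        rw [mul_one] at h8
        refine h8.congr_of_eventuallyEq (Eventually.of_forall fun s => ?_)
        show X (φ + s • h) = X ((φ + t • h) + (s - t) • h)
        rw [add_assoc, ← add_smul, add_sub_cancel]
      exact h4 (ht h3 _ h5))
    have h3 : ∀ᵐ φ ∂P, ¬ (X φ ∈ N ∧ deriv (fun t : ℝ => X (φ + t • h)) 0 ≠ 0) :=
      measure_eq_zero_iff_ae_notMem.1 h2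
    filter_upwards [h3] with φ hφ hmem
    by_contra hne
    exact hφ ⟨hmem, hne⟩

end abs

section surf

variable {M : Type} [MetricSpace M] [CompactSpace M] [MeasurableSpace M] [BorelSpace M]
  {μ : Measure M} {D : Data M} [IsFiniteMeasure μ]

/-- the absolute continuity of the laws -/
theorem rand (hD : D.IsSurf μ) (i : HF D μ →L[ℝ] Lp ℝ 2 μ) (a : HF D μ →L[ℝ] HF D μ →L[ℝ] ℝ)
    (hSf : Sf μ i a) (hi : ∀ v, i v = v.1.fst) (ha : ∀ u v, a u v = inner ℝ u.1.snd v.1.snd)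
    (b : C(M, ℝ) → HF D μ →L[ℝ] HF D μ →L[ℝ] ℝ) (hB : IsB μ i b)
    (hex : ∀ φ, ∃ (e : ℕ → HF D μ) (E : ℕ → ℝ), Eg a (b φ) e E) (hW : Wl μ a b)
    [MeasurableSpace C(M, ℝ)] [BorelSpace C(M, ℝ)] (P : Measure C(M, ℝ))
    [IsProbabilityMeasure P] (S : Set C(M, ℝ)) (hS : Dense (Submodule.span ℝ S : Set C(M, ℝ)))
    (hac : ∀ h ∈ S, ∀ t : ℝ, P.map (fun φ => φ + t • h) ≪ P) (θ : ℝ) (hθ0 : 0 ≤ θ) (hθ1 : θ ≤ 1)
    (N : Set ℝ) (hN : volume N = 0) : ∀ᵐ φ ∂P, ∀ j k, j < k → 0 < unf μ a b k φ →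
      unf μ a b k φ - θ * unf μ a b j φ ∉ N := by
  obtain ⟨hF, hA, hexp, hk⟩ := facts μ i a b hSf hB
  obtain ⟨S', hS'c, hS'S, hS'd⟩ := countable_span S hS
  haveI := hS'c.to_subtype
  have h1 : ∀ᵐ φ ∂P, ∀ h : S', ∀ l, DifferentiableAt ℝ
      (fun t : ℝ => Ev a (b (φ + t • (h : C(M, ℝ)))) l) 0 := by
    rw [ae_all_iff]
    intro h
    exact (one_dir μ i a b hSf hB hex hW P h (hac h (hS'S h.2))).1
  have h2 : ∀ᵐ φ ∂P, ∀ (h : S') (j k : ℕ),
      unf μ a b k φ - θ * unf μ a b j φ ∈ toMeasurable volume N →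
        deriv (fun t : ℝ => unf μ a b k (φ + t • (h : C(M, ℝ))) -
          θ * unf μ a b j (φ + t • (h : C(M, ℝ)))) 0 = 0 := by
    rw [ae_all_iff]
    intro h
    rw [ae_all_iff]
    intro j
    rw [ae_all_iff]
    intro k
    refine (one_dir μ i a b hSf hB hex hW P h (hac h (hS'S h.2))).2
      (fun φ => unf μ a b k φ - θ * unf μ a b j φ) ?_ _ (measurableSet_toMeasurable _ _) ?_
    · exact (unf_cont μ i a b hSf hB k).sub (continuous_const.mul (unf_cont μ i a b hSf hB j))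
    · rw [measure_toMeasurable, hN]
  filter_upwards [h1, h2] with φ g1 g2 j k hjk hpos hmem
  have hmem' := subset_toMeasurable volume N hmem
  obtain ⟨e, E, hE⟩ := hex φ
  have hmm : ∀ l, Ev a (b φ) l = E l :=
    fun l => Pool.Agent.Y592.QE.mm _ a (b φ) (hF φ) e E hE l
  have hUE : ∀ l, UE a (b φ) (Ev a (b φ) l) (e l) := by
    intro l
    rw [hmm]
    exact ⟨by rw [hE.orth, if_pos rfl], hE.eig l⟩
  have hEk : 0 < Ev a (b φ) k := by
    unfold unf at hpos
    exact (pos_iff_pos_of_mul_pos hpos).1 (div_pos (hA φ) (by positivity))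
  refine core hD i a hSf hi ha b hB hE hjk hθ0 hθ1 (by rw [← hmm]; exact hEk) ?_ ?_
  · intro f v w hv hw
    rw [← hmm] at hv hw
    refine ext_const μ i a b hSf hB hS'd (fun h hh => ?_) f
    have d1 := point' μ i a b hSf hB hex h φ (g1 ⟨h, hh⟩) k v hv
    have d2 := point' μ i a b hSf hB hex h φ (g1 ⟨h, hh⟩) k w hw
    exact mul_right_cancel₀ hEk.ne' (neg_injective (d1.unique d2))
  · intro f
    have key := ext_id μ i a b hSf hB hS'd (φ := φ) (v := e k) (w := e j) (α := E k)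
      (β := θ * E j) (fun h hh => ?_) f
    · rw [key, mul_assoc]
    · have d1 := unf_der μ i a b hSf hB hex h φ k (e k)
        (point' μ i a b hSf hB hex h φ (g1 ⟨h, hh⟩) k (e k) (hUE k))
      have d2 := unf_der μ i a b hSf hB hex h φ j (e j)
        (point' μ i a b hSf hB hex h φ (g1 ⟨h, hh⟩) j (e j) (hUE j))
      have d3 := (d1.sub (d2.const_mul θ)).deriv
      have d4 := g2 ⟨h, hh⟩ j k hmem'
      have d5 := d3.symm.trans d4
      have h6 : 0 < (∫ x, Real.exp (φ x) ∂μ) / (4 * π) := div_pos (hA φ) (by positivity)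
      rw [hmm, hmm] at d5
      have h7 : (∫ x, Real.exp (φ x) ∂μ) / (4 * π) * (E k * (avg μ h φ - kap μ i h φ (e k)) -
          θ * E j * (avg μ h φ - kap μ i h φ (e j))) = 0 := by
        rw [← d5]; ring
      have h8 := (mul_eq_zero.1 h7).resolve_left h6.ne'
      linarith

end surf

end Pool.Agent.K7.H58.RM
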